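import Pool.Agent.Helper76.TC.Goals
import Pool.Agent.Helper30.CT.TOP

/-!
# Packet TC-T4 (MP_ccd65d_gt): a square of paths in two open sets
-/

set_option autoImplicit false

open Set Filter Topology

namespace Pool.Agent.Helper69.TC.T4

open Pool.Agent.Helper76.TC
open Pool.Agent.Helper30.CT (cont_aux const_path)

theorem t : S_T4 := by
  intro X _ _ _ L R hL hR hLR x1 x2 x3 x4 h12 h23 h34 h41
  by_contra hcon
  rw [not_or] at hcon
  set M : Set X := L ∩ R with hMdef
  have hMo : IsOpen M := hL.inter hR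
  have hxM : x1 ∈ M := ⟨h12.source_mem, h41.target_mem⟩
  set M1 : Set X := pathComponentIn M x1 with hM1def
  have hM1o : IsOpen M1 := hMo.pathComponentIn x1
  have hsub : M1 ⊆ M := pathComponentIn_subset
  have hMM : IsOpen (M \ M1) := by
    rw [isOpen_iff_mem_nhds]
    intro z hz
    have h1 : pathComponentIn M z ∈ 𝓝 z :=
      (hMo.pathComponentIn z).mem_nhds (mem_pathComponentIn_self hz.1)
    refine mem_of_superset h1 fun w hw => ⟨pathComponentIn_subset hw, fun hw1 => hz.2 ?_⟩
    exact JoinedIn.trans hw1 (JoinedIn.symm hw)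
  have hx2 : x2 ∉ M1 := hcon.1
  have hx4 : x4 ∉ M1 := hcon.2
  have hx1 : x1 ∈ M1 := mem_pathComponentIn_self hxM
  obtain ⟨u, hu0, hu1, -⟩ := exists_continuous_zero_one_of_isClosed (s := Rᶜ) (t := Lᶜ)
    hR.isClosed_compl hL.isClosed_compl (by
      rw [disjoint_compl_left_iff_subset]
      intro z hz
      have : z ∈ L ∪ R := by rw [hLR]; exact mem_univ z
      exact this.resolve_left hz)
  let a : X → ℝ := M1.indicator fun z => u z
  let b : X → ℝ := M1.indicator fun z => u z - 1
  have ha : ∀ z ∈ L, ContinuousAt a z := by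
    intro z hz
    refine cont_aux hM1o hMM hsub _ u.continuous z ?_
    by_cases h : z ∈ R
    · exact Or.inl ⟨hz, h⟩
    · exact Or.inr (hu0 h)
  have hb : ∀ z ∈ R, ContinuousAt b z := by
    intro z hz
    refine cont_aux hM1o hMM hsub _ (u.continuous.sub continuous_const) z ?_
    by_cases h : z ∈ L
    · exact Or.inl ⟨h, hz⟩
    · refine Or.inr ?_
      have := hu1 h
      simp only [Pi.one_apply] at this
      show u z - 1 = 0
      rw [this, sub_self]
  have hab : ∀ z, ((a z : ℝ) : AddCircle (1 : ℝ)) = (b z : ℝ) := by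
    intro z
    by_cases h : z ∈ M1
    · have e1 : a z = u z := indicator_of_mem h _
      have e2 : b z = u z - 1 := indicator_of_mem h _
      rw [e1, e2, AddCircle.coe_sub, AddCircle.coe_period, sub_zero]
    · have e1 : a z = 0 := indicator_of_notMem h _
      have e2 : b z = 0 := indicator_of_notMem h _
      rw [e1, e2]
  have hφ : Continuous fun z => ((a z : ℝ) : AddCircle (1 : ℝ)) := by
    rw [continuous_iff_continuousAt]
    intro z
    have : z ∈ L ∪ R := by rw [hLR]; exact mem_univ z
    have hcoe : Continuous fun r : ℝ => (r : AddCircle (1 : ℝ)) := AddCircle.continuous_mk' 1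
    rcases this with h | h
    · exact hcoe.continuousAt.comp (ha z h)
    · have e : (fun z => ((a z : ℝ) : AddCircle (1 : ℝ))) = fun z => ((b z : ℝ) : AddCircle (1 : ℝ)) :=
        funext hab
      rw [e]
      exact hcoe.continuousAt.comp (hb z h)
  obtain ⟨Φ, ⟨hΦ0, hΦ⟩, -⟩ := (AddCircle.isCoveringMap_coe (1 : ℝ)).existsUnique_continuousMap_lifts
    (⟨_, hφ⟩ : C(X, AddCircle (1 : ℝ))) x2 0 (by
      have : a x2 = 0 := indicator_of_notMem hx2 _
      simp [this])
  have hΦa : ∀ z, ((Φ z : ℝ) : AddCircle (1 : ℝ)) = (a z : ℝ) := fun z => congrFun hΦ z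
  have hΦb : ∀ z, ((Φ z : ℝ) : AddCircle (1 : ℝ)) = (b z : ℝ) := fun z => by
    rw [hΦa z, hab z]
  have k1 := const_path h12 Φ.continuous ha hΦa
  have k2 := const_path h23 Φ.continuous hb hΦb
  have k3 := const_path h34 Φ.continuous ha hΦa
  have k4 := const_path h41 Φ.continuous hb hΦb
  have a1 : a x1 = u x1 := indicator_of_mem hx1 _
  have b1 : b x1 = u x1 - 1 := indicator_of_mem hx1 _
  have a2 : a x2 = 0 := indicator_of_notMem hx2 _
  have b2 : b x2 = 0 := indicator_of_notMem hx2 _
  have a4 : a x4 = 0 := indicator_of_notMem hx4 _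
  have b4 : b x4 = 0 := indicator_of_notMem hx4 _
  have i3 : b x3 ≤ a x3 := by
    by_cases h : x3 ∈ M1
    · have e1 : a x3 = u x3 := indicator_of_mem h _
      have e2 : b x3 = u x3 - 1 := indicator_of_mem h _
      rw [e1, e2]; linarith
    · have e1 : a x3 = 0 := indicator_of_notMem h _
      have e2 : b x3 = 0 := indicator_of_notMem h _
      rw [e1, e2]
  rw [a1, a2] at k1
  rw [b2] at k2
  rw [a4] at k3
  rw [b4, b1] at k4
  linarith

end Pool.Agent.Helper69.TC.T4
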